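import Mathlib

/-! The largest chromatic numbers of unit, midpoint unit and midpoint proper veto interval
graphs: they are `4`, `3` and `3`. -/

set_option autoImplicit false

namespace Pool.Agent.Helper181.VetoChromaticNumbers

/-- A veto interval: a closed interval `[l, r]` with a veto mark `v` strictly inside it. -/
structure VetoInterval where
  /-- left endpoint -/
  l : ℝ
  /-- veto mark -/
  v : ℝ
  /-- right endpoint -/
  r : ℝ
  hlv : l < v
  hvr : v < r

/-- The two intervals meet and neither contains the veto mark of the other. -/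
def VAdj (a b : VetoInterval) : Prop :=
  (a.v < b.l ∧ b.l < a.r ∧ a.r < b.v) ∨ (b.v < a.l ∧ a.l < b.r ∧ b.r < a.v)

/-- `I` is a veto interval representation of `G`: an injection of the vertices to veto intervals
such that distinct vertices are adjacent exactly if their intervals satisfy `VAdj`. -/
def IsRep {V : Type} (G : SimpleGraph V) (I : V → VetoInterval) : Prop :=
  Function.Injective I ∧ ∀ a b, a ≠ b → (G.Adj a b ↔ VAdj (I a) (I b))

/-- All intervals have the same length. -/
def IsUnitRep {V : Type} (I : V → VetoInterval) : Prop :=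
  ∀ a b, (I a).r - (I a).l = (I b).r - (I b).l

/-- No interval properly contains another. -/
def IsProperRep {V : Type} (I : V → VetoInterval) : Prop :=
  ∀ a b, ¬ (Set.Icc (I a).l (I a).r ⊂ Set.Icc (I b).l (I b).r)

/-- Every veto mark is the midpoint of its interval. -/
def IsMidpointRep {V : Type} (I : V → VetoInterval) : Prop :=
  ∀ a, (I a).v = ((I a).l + (I a).r) / 2

/-! ### Unit veto interval graphs are four-colourable -/

lemma unit_aux {c : ℝ} (hc : 0 < c) {a b : VetoInterval} (ha : a.r - a.l = c)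
    (h : a.v < b.l ∧ b.l < a.r ∧ a.r < b.v)
    (hpar : ⌊a.l / c⌋ % 2 = ⌊b.l / c⌋ % 2) :
    ¬ (c * (⌊a.l / c⌋ + 1) ≤ a.v) ∧ c * (⌊b.l / c⌋ + 1) ≤ b.v := by
  obtain ⟨h1, h2, h3⟩ := h
  have hal := a.hlv
  have e1 : a.l < b.l := lt_trans hal h1
  have e2 : b.l < a.l + c := by linarith
  have f1 : ⌊a.l / c⌋ ≤ ⌊b.l / c⌋ := Int.floor_le_floor (by gcongr)
  have f2 : ⌊b.l / c⌋ ≤ ⌊a.l / c⌋ + 1 := by
    have : b.l / c ≤ a.l / c + 1 := by
      rw [div_add_one hc.ne']
      gcongr
    calc ⌊b.l / c⌋ ≤ ⌊a.l / c + 1⌋ := Int.floor_le_floor this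
      _ = ⌊a.l / c⌋ + 1 := by simp
  have f3 : ⌊a.l / c⌋ = ⌊b.l / c⌋ := by omega
  have g1 : b.l < c * (⌊b.l / c⌋ + 1) := by
    have := Int.lt_floor_add_one (b.l / c)
    rw [div_lt_iff₀ hc] at this
    linarith
  have g2 : c * ⌊a.l / c⌋ ≤ a.l := by
    have := Int.floor_le (a.l / c)
    rw [le_div_iff₀ hc] at this
    linarith
  constructor
  · rw [f3]
    intro h'
    linarith
  · rw [← f3]
    have : c * (⌊a.l / c⌋ + 1) = c * ⌊a.l / c⌋ + c := by ring
    rw [this]
    linarith

open Classical in
theorem unit_colorable {V : Type} (G : SimpleGraph V) (I : V → VetoInterval)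
    (hI : IsRep G I) (hu : IsUnitRep I) : G.Colorable 4 := by
  rcases isEmpty_or_nonempty V with hV | ⟨⟨w⟩⟩
  · exact SimpleGraph.Colorable.of_isEmpty 4
  set c : ℝ := (I w).r - (I w).l with hcdef
  have hc : 0 < c := by
    have h1 := (I w).hlv
    have h2 := (I w).hvr
    rw [hcdef]; linarith
  have hlen : ∀ a, (I a).r - (I a).l = c := fun a => hu a w
  let col : V → Bool × Bool := fun a =>
    (decide (⌊(I a).l / c⌋ % 2 = 0), decide (c * (⌊(I a).l / c⌋ + 1) ≤ (I a).v))
  have hvalid : ∀ a b, G.Adj a b → col a ≠ col b := by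
    intro a b hab heq
    have hne : a ≠ b := hab.ne
    have hadj := (hI.2 a b hne).1 hab
    have hp : ⌊(I a).l / c⌋ % 2 = ⌊(I b).l / c⌋ % 2 := by
      have h1 := congrArg Prod.fst heq
      have h2 : (⌊(I a).l / c⌋ % 2 = 0) ↔ (⌊(I b).l / c⌋ % 2 = 0) := by
        simpa [col] using h1
      rcases Int.emod_two_eq_zero_or_one ⌊(I a).l / c⌋ with h | h <;>
      rcases Int.emod_two_eq_zero_or_one ⌊(I b).l / c⌋ with h' | h' <;> omega
    have hq : (c * (⌊(I a).l / c⌋ + 1) ≤ (I a).v) ↔ (c * (⌊(I b).l / c⌋ + 1) ≤ (I b).v) := by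
      have h1 := congrArg Prod.snd heq
      simpa only [col, decide_eq_decide] using h1
    rcases hadj with h | h
    · obtain ⟨h1, h2⟩ := unit_aux hc (hlen a) h hp
      exact h1 (hq.2 h2)
    · obtain ⟨h1, h2⟩ := unit_aux hc (hlen b) h hp.symm
      exact h1 (hq.1 h2)
  have C : G.Coloring (Bool × Bool) := SimpleGraph.Coloring.mk col (fun {a b} h => hvalid a b h)
  have := C.colorable
  simpa using this

/-! ### Monotone representations give three-colourable graphs -/

section Blocks

open Classical in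
lemma exists_next (n : ℕ) (l v r : ℕ → ℝ) (s : ℕ) :
    ∃ b, s < b ∧ (n ≤ b ∨ (v s < l b ∧ r s < v b)) :=
  ⟨max n (s + 1), by omega, Or.inl (le_max_left _ _)⟩

open Classical in
/-- start of the next block -/
noncomputable def next (n : ℕ) (l v r : ℕ → ℝ) (s : ℕ) : ℕ := Nat.find (exists_next n l v r s)

lemma lt_next (n : ℕ) (l v r : ℕ → ℝ) (s : ℕ) : s < next n l v r s := by
  classical
  exact (Nat.find_spec (exists_next n l v r s)).1

lemma next_spec (n : ℕ) (l v r : ℕ → ℝ) (s : ℕ) (h : next n l v r s < n) :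
    v s < l (next n l v r s) ∧ r s < v (next n l v r s) := by
  classical
  rcases (Nat.find_spec (exists_next n l v r s)).2 with h1 | h1
  · exact absurd h1 (not_le.2 h)
  · exact h1

lemma next_min (n : ℕ) (l v r : ℕ → ℝ) (s b : ℕ) (hsb : s < b)
    (h : b < next n l v r s) : l b ≤ v s ∨ v b ≤ r s := by
  classical
  have h1 := Nat.find_min (exists_next n l v r s) h
  by_contra h2
  rw [not_or, not_le, not_le] at h2
  exact h1 ⟨hsb, Or.inr h2⟩

/-- starts of the blocks -/
noncomputable def start (n : ℕ) (l v r : ℕ → ℝ) : ℕ → ℕ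
  | 0 => 0
  | k + 1 => next n l v r (start n l v r k)

lemma start_strictMono (n : ℕ) (l v r : ℕ → ℝ) : StrictMono (start n l v r) :=
  strictMono_nat_of_lt_succ fun _ => lt_next n l v r _

/-- block number of an index -/
noncomputable def block (n : ℕ) (l v r : ℕ → ℝ) (i : ℕ) : ℕ :=
  Nat.findGreatest (fun k => start n l v r k ≤ i) i

lemma start_block (n : ℕ) (l v r : ℕ → ℝ) (i : ℕ) : start n l v r (block n l v r i) ≤ i := by
  have h0 : start n l v r 0 ≤ i := Nat.zero_le _
  exact Nat.findGreatest_spec (P := fun k => start n l v r k ≤ i) (Nat.zero_le i) h0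

lemma lt_start_block (n : ℕ) (l v r : ℕ → ℝ) (i : ℕ) :
    i < start n l v r (block n l v r i + 1) := by
  by_contra h
  rw [not_lt] at h
  have h1 : block n l v r i + 1 ≤ i := le_trans ((start_strictMono n l v r).id_le _) h
  have h2 := Nat.le_findGreatest (P := fun k => start n l v r k ≤ i) h1 h
  have h3 : block n l v r i + 1 ≤ block n l v r i := h2
  omega

lemma block_mono (n : ℕ) (l v r : ℕ → ℝ) {a b : ℕ} (hab : a ≤ b) :
    block n l v r a ≤ block n l v r b := by
  by_contra h
  rw [not_le] at h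
  have h1 := lt_start_block n l v r b
  have h2 := start_block n l v r a
  have h3 : start n l v r (block n l v r b + 1) ≤ start n l v r (block n l v r a) :=
    (start_strictMono n l v r).monotone h
  omega

/-- The key step: two adjacent indices lie in different blocks at distance at most two. -/
lemma block_adj (n : ℕ) (l v r : ℕ → ℝ)
    (hl : ∀ i j, i ≤ j → j < n → l i ≤ l j) (hv : ∀ i j, i ≤ j → j < n → v i ≤ v j)
    (hr : ∀ i j, i ≤ j → j < n → r i ≤ r j) {a b : ℕ} (hab : a < b) (hb : b < n)
    (h1 : v a < l b) (h2 : l b < r a) (h3 : r a < v b) :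
    block n l v r a < block n l v r b ∧ block n l v r b < block n l v r a + 3 := by
  have ha := start_block n l v r a
  have ha' := lt_start_block n l v r a
  constructor
  · rcases (block_mono n l v r hab.le).lt_or_eq with h | h
    · exact h
    · exfalso
      have hb' := lt_start_block n l v r b
      rw [← h] at hb'
      have hs : start n l v r (block n l v r a) < b := lt_of_le_of_lt ha hab
      rcases next_min n l v r _ b hs hb' with h4 | h4
      · have := hv _ a ha (hab.trans hb)
        linarith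
      · have := hr _ a ha (hab.trans hb)
        linarith
  · by_contra hc
    rw [not_lt] at hc
    set k := block n l v r a with hk
    have hu : start n l v r (k + 3) ≤ b :=
      le_trans ((start_strictMono n l v r).monotone hc) (start_block n l v r b)
    have hsm := start_strictMono n l v r
    have s1 : start n l v r (k + 1) < start n l v r (k + 2) := hsm (by omega)
    have s2 : start n l v r (k + 2) < start n l v r (k + 3) := hsm (by omega)
    have e1 := next_spec n l v r (start n l v r (k + 1)) (by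
      change start n l v r (k + 2) < n
      omega)
    have e2 := next_spec n l v r (start n l v r (k + 2)) (by
      change start n l v r (k + 3) < n
      omega)
    change v (start n l v r (k + 1)) < l (start n l v r (k + 2)) ∧
      r (start n l v r (k + 1)) < v (start n l v r (k + 2)) at e1
    change v (start n l v r (k + 2)) < l (start n l v r (k + 3)) ∧
      r (start n l v r (k + 2)) < v (start n l v r (k + 3)) at e2
    have e3 := hr a (start n l v r (k + 1)) (le_of_lt ha') (by omega)
    have e4 := hl (start n l v r (k + 3)) b hu hb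
    linarith [e1.2, e2.1]

end Blocks

theorem midpointProper_colorable {V : Type} [Fintype V] (G : SimpleGraph V)
    (I : V → VetoInterval) (hI : IsRep G I) (hp : IsProperRep I) (hm : IsMidpointRep I) :
    G.Colorable 3 := by
  classical
  -- the left endpoints are distinct and determine the order of everything
  have hcon : ∀ a b, (I a).l ≤ (I b).l → (I b).r ≤ (I a).r → a = b := by
    intro a b h1 h2
    by_contra hne
    have hsub : Set.Icc (I b).l (I b).r ⊆ Set.Icc (I a).l (I a).r := Set.Icc_subset_Icc h1 h2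
    have hno := hp b a
    have heq : Set.Icc (I b).l (I b).r = Set.Icc (I a).l (I a).r := by
      by_contra hne'
      exact hno (hsub.ssubset_of_ne hne')
    have hbl : (I b).l ≤ (I b).r := ((I b).hlv.trans (I b).hvr).le
    have hal : (I a).l ≤ (I a).r := ((I a).hlv.trans (I a).hvr).le
    have hsub2 := (Set.Icc_subset_Icc_iff hal).1 heq.symm.subset
    have hl : (I a).l = (I b).l := le_antisymm h1 hsub2.1
    have hr : (I a).r = (I b).r := le_antisymm hsub2.2 h2
    have hv : (I a).v = (I b).v := by rw [hm a, hm b, hl, hr]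
    apply hne
    apply hI.1
    cases h : I a
    cases h' : I b
    simp only [h, h'] at hl hr hv
    simp only [VetoInterval.mk.injEq]
    exact ⟨hl, hv, hr⟩
  have hlinj : Function.Injective (fun a => (I a).l) := by
    intro a b hab
    simp only at hab
    rcases le_total (I a).r (I b).r with h | h
    · exact (hcon b a hab.symm.le h).symm
    · exact hcon a b hab.le h
  have hr : ∀ a b, (I a).l ≤ (I b).l → (I a).r ≤ (I b).r := by
    intro a b hab
    by_contra h
    rw [not_le] at h
    have := hcon a b hab h.le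
    rw [this] at h
    exact lt_irrefl _ h
  have hv : ∀ a b, (I a).l ≤ (I b).l → (I a).v ≤ (I b).v := by
    intro a b hab
    rw [hm a, hm b]
    have := hr a b hab
    linarith
  let _ : LinearOrder V := LinearOrder.lift' (fun a => (I a).l) hlinj
  have hle : ∀ a b : V, a ≤ b ↔ (I a).l ≤ (I b).l := fun a b => Iff.rfl
  let n := Fintype.card V
  let e : Fin n ≃o V := Fintype.orderIsoFinOfCardEq V rfl
  let l : ℕ → ℝ := fun i => if h : i < n then (I (e ⟨i, h⟩)).l else 0
  let v : ℕ → ℝ := fun i => if h : i < n then (I (e ⟨i, h⟩)).v else 0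
  let r : ℕ → ℝ := fun i => if h : i < n then (I (e ⟨i, h⟩)).r else 0
  have hl' : ∀ (i : ℕ) (h : i < n), l i = (I (e ⟨i, h⟩)).l := fun i h => dif_pos h
  have hv' : ∀ (i : ℕ) (h : i < n), v i = (I (e ⟨i, h⟩)).v := fun i h => dif_pos h
  have hr' : ∀ (i : ℕ) (h : i < n), r i = (I (e ⟨i, h⟩)).r := fun i h => dif_pos h
  have hord : ∀ (i j : ℕ) (hij : i ≤ j) (hj : j < n),
      (I (e ⟨i, lt_of_le_of_lt hij hj⟩)).l ≤ (I (e ⟨j, hj⟩)).l := by
    intro i j hij hj
    rw [← hle]
    exact e.monotone hij
  have ml : ∀ i j, i ≤ j → j < n → l i ≤ l j := by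
    intro i j hij hj
    rw [hl' i (lt_of_le_of_lt hij hj), hl' j hj]
    exact hord i j hij hj
  have mv : ∀ i j, i ≤ j → j < n → v i ≤ v j := by
    intro i j hij hj
    rw [hv' i (lt_of_le_of_lt hij hj), hv' j hj]
    exact hv _ _ (hord i j hij hj)
  have mr : ∀ i j, i ≤ j → j < n → r i ≤ r j := by
    intro i j hij hj
    rw [hr' i (lt_of_le_of_lt hij hj), hr' j hj]
    exact hr _ _ (hord i j hij hj)
  let B : V → ℕ := fun a => block n l v r (e.symm a).1
  have key : ∀ a b : V, ((I a).v < (I b).l ∧ (I b).l < (I a).r ∧ (I a).r < (I b).v) →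
      B a < B b ∧ B b < B a + 3 := by
    intro a b h
    obtain ⟨h1, h2, h3⟩ := h
    have hlt : a < b := by
      rw [lt_iff_not_ge, hle, not_le]
      exact (I a).hlv.trans h1
    have hlt' : (e.symm a).1 < (e.symm b).1 := e.symm.strictMono hlt
    have ea : ∀ x : V, l (e.symm x).1 = (I x).l := by
      intro x
      rw [hl' _ (e.symm x).2]
      simp
    have eb : ∀ x : V, v (e.symm x).1 = (I x).v := by
      intro x
      rw [hv' _ (e.symm x).2]
      simp
    have ec : ∀ x : V, r (e.symm x).1 = (I x).r := by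
      intro x
      rw [hr' _ (e.symm x).2]
      simp
    apply block_adj n l v r ml mv mr hlt' (e.symm b).2
    · rw [eb, ea]; exact h1
    · rw [ea, ec]; exact h2
    · rw [ec, eb]; exact h3
  have C : G.Coloring (Fin 3) := SimpleGraph.Coloring.mk
    (fun a => (⟨B a % 3, Nat.mod_lt _ (by norm_num)⟩ : Fin 3)) (by
      intro a b hab heq
      have hmod : B a % 3 = B b % 3 := by
        have := congrArg Fin.val heq
        simpa using this
      rcases (hI.2 a b hab.ne).1 hab with h | h
      · have := key a b h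
        omega
      · have := key b a h
        omega)
  exact C.colorable

/-! ### The examples -/

/-- the graph of a family of veto intervals -/
def graphOf {V : Type} (I : V → VetoInterval) : SimpleGraph V where
  Adj a b := VAdj (I a) (I b)
  symm := ⟨fun _ _ h => Or.symm h⟩
  loopless := ⟨by
    intro a h
    have h1 := (I a).hlv
    rcases h with h | h <;> linarith [h.1]⟩

lemma isRep_graphOf {V : Type} (I : V → VetoInterval) (hI : Function.Injective I) :
    IsRep (graphOf I) I := ⟨hI, fun _ _ _ => Iff.rfl⟩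

/-- five unit midpoint veto intervals forming a five-cycle -/
noncomputable def five (i : Fin 5) : VetoInterval where
  l := 3 * (i.1 : ℝ)
  v := 3 * (i.1 : ℝ) + 5
  r := 3 * (i.1 : ℝ) + 10
  hlv := by linarith
  hvr := by linarith

lemma five_inj : Function.Injective five := by
  intro a b h
  have h1 : (3 : ℝ) * (a.1 : ℝ) = 3 * (b.1 : ℝ) := congrArg VetoInterval.l h
  have h2 : (a.1 : ℝ) = (b.1 : ℝ) := by linarith
  exact Fin.ext (by exact_mod_cast h2)

lemma five_not_two : ¬ (graphOf five).Colorable 2 := by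
  rintro ⟨C⟩
  have hadj : ∀ a b : Fin 5, (b.1 = a.1 + 2 ∨ b.1 = a.1 + 3) → (graphOf five).Adj a b := by
    intro a b h
    left
    have h' : (b.1 : ℝ) = a.1 + 2 ∨ (b.1 : ℝ) = a.1 + 3 := by
      rcases h with h | h
      · left; exact_mod_cast h
      · right; exact_mod_cast h
    change 3 * (a.1 : ℝ) + 5 < 3 * (b.1 : ℝ) ∧ 3 * (b.1 : ℝ) < 3 * (a.1 : ℝ) + 10 ∧
      3 * (a.1 : ℝ) + 10 < 3 * (b.1 : ℝ) + 5
    rcases h' with h' | h' <;> rw [h'] <;> refine ⟨?_, ?_, ?_⟩ <;> linarith
  have e1 := C.valid (hadj 0 2 (by decide))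
  have e2 := C.valid (hadj 2 4 (by decide))
  have e3 := C.valid (hadj 1 4 (by decide))
  have e4 := C.valid (hadj 1 3 (by decide))
  have e5 := C.valid (hadj 0 3 (by decide))
  generalize C 0 = x0 at *
  generalize C 1 = x1 at *
  generalize C 2 = x2 at *
  generalize C 3 = x3 at *
  generalize C 4 = x4 at *
  omega

lemma five_mid : IsMidpointRep five := by
  intro a
  change 3 * (a.1 : ℝ) + 5 = (3 * (a.1 : ℝ) + (3 * (a.1 : ℝ) + 10)) / 2
  ring

lemma five_unit : IsUnitRep five := by
  intro a b
  change 3 * (a.1 : ℝ) + 10 - 3 * (a.1 : ℝ) = 3 * (b.1 : ℝ) + 10 - 3 * (b.1 : ℝ)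
  ring

/-- unit representations are proper -/
lemma IsUnitRep.proper {V : Type} {I : V → VetoInterval} (h : IsUnitRep I) : IsProperRep I := by
  intro a b hab
  have hal : (I a).l ≤ (I a).r := ((I a).hlv.trans (I a).hvr).le
  have h1 := (Set.Icc_subset_Icc_iff hal).1 hab.subset
  have h2 := h a b
  have h3 : (I a).l = (I b).l := by linarith [h1.1, h1.2]
  have h4 : (I a).r = (I b).r := by linarith [h1.1, h1.2]
  rw [h3, h4] at hab
  exact lt_irrefl _ hab

/-! ### A unit veto interval graph with chromatic number four -/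

/-- search for a proper 3-colouring extending a partial one -/
def search : List (List ℕ) → List ℕ → Bool
  | [], _ => true
  | nb :: rest, cols =>
    (nb.all (fun j => cols.getD j 3 != 0) && search rest (cols ++ [0])) ||
    (nb.all (fun j => cols.getD j 3 != 1) && search rest (cols ++ [1])) ||
    (nb.all (fun j => cols.getD j 3 != 2) && search rest (cols ++ [2]))

lemma search_true (f : ℕ → ℕ) (hf : ∀ i, f i < 3) (rest : List (List ℕ)) (k : ℕ)
    (h : ∀ i, i < rest.length → ∀ j ∈ rest.getD i [], j < k + i ∧ f j ≠ f (k + i)) :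
    search rest ((List.range k).map f) = true := by
  induction rest generalizing k with
  | nil => rfl
  | cons nb rest ih =>
    have h1 : ∀ c, c = f k → (nb.all (fun j => ((List.range k).map f).getD j 3 != c)) = true := by
      intro c hc
      rw [List.all_eq_true]
      intro j hj
      obtain ⟨h2, h3⟩ := h 0 (by simp) j (by simpa using hj)
      have h4 : ((List.range k).map f).getD j 3 = f j := by
        rw [List.getD_eq_getElem?_getD, List.getElem?_map, List.getElem?_range (by simpa using h2)]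
        rfl
      rw [h4, hc]
      simpa using h3
    have h2 : search rest ((List.range k).map f ++ [f k]) = true := by
      have h3 : (List.range k).map f ++ [f k] = (List.range (k + 1)).map f := by
        rw [List.range_succ, List.map_append]
        rfl
      rw [h3]
      apply ih
      intro i hi j hj
      have := h (i + 1) (by simpa using hi) j (by simpa using hj)
      rw [show k + 1 + i = k + (i + 1) by ring]
      exact this
    unfold search
    have hfk := hf k
    rcases (by omega : f k = 0 ∨ f k = 1 ∨ f k = 2) with h5 | h5 | h5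
    · rw [h5] at h2
      rw [h1 0 h5.symm, h2]
      simp
    · rw [h5] at h2
      rw [h1 1 h5.symm, h2]
      simp
    · rw [h5] at h2
      rw [h1 2 h5.symm, h2]
      simp

/-- left endpoints (halved) -/
def dl : List ℕ :=
  [25, 29, 20, 16, 25, 23, 18, 23, 14, 12, 17, 19, 15, 8, 8, 3, 1, 12, 10, 3]

/-- offsets of the veto marks -/
def dv : List ℕ :=
  [3, 7, 2, 0, 9, 9, 4, 1, 8, 1, 9, 7, 3, 1, 4, 8, 1, 9, 9, 2]

/-- earlier neighbours -/
def nbs : List (List ℕ) :=
  [[], [0], [1], [0], [3, 2], [3, 2], [5, 0, 4], [4, 1], [7, 5], [8, 6, 2], [9, 3], [9, 3],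
   [11, 5], [8, 12, 10], [8, 12, 10], [9], [15, 14], [15, 13], [16, 13], [18, 9, 17]]

/-- twenty unit veto intervals -/
noncomputable def twenty (i : Fin 20) : VetoInterval where
  l := 2 * ((dl.getD i.1 0 : ℕ) : ℝ)
  v := 2 * ((dl.getD i.1 0 : ℕ) : ℝ) + 2 * ((dv.getD i.1 0 : ℕ) : ℝ) + 1
  r := 2 * ((dl.getD i.1 0 : ℕ) : ℝ) + 20
  hlv := by
    have h : (0 : ℝ) ≤ ((dv.getD i.1 0 : ℕ) : ℝ) := Nat.cast_nonneg _
    linarith
  hvr := by
    have h : ∀ i : Fin 20, dv.getD i.1 0 ≤ 9 := by decide
    have h2 : ((dv.getD i.1 0 : ℕ) : ℝ) ≤ 9 := by exact_mod_cast h i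
    linarith

lemma twenty_inj : Function.Injective twenty := by
  intro a b h
  have h1 : (2 : ℝ) * ((dl.getD a.1 0 : ℕ) : ℝ) = 2 * ((dl.getD b.1 0 : ℕ) : ℝ) :=
    congrArg VetoInterval.l h
  have h2 : (2 : ℝ) * ((dl.getD a.1 0 : ℕ) : ℝ) + 2 * ((dv.getD a.1 0 : ℕ) : ℝ) + 1 =
      2 * ((dl.getD b.1 0 : ℕ) : ℝ) + 2 * ((dv.getD b.1 0 : ℕ) : ℝ) + 1 :=
    congrArg VetoInterval.v h
  have h3 : ((dl.getD a.1 0 : ℕ) : ℝ) = ((dl.getD b.1 0 : ℕ) : ℝ) := by linarith
  have h4 : ((dv.getD a.1 0 : ℕ) : ℝ) = ((dv.getD b.1 0 : ℕ) : ℝ) := by linarith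
  have h5 : dl.getD a.1 0 = dl.getD b.1 0 := by exact_mod_cast h3
  have h6 : dv.getD a.1 0 = dv.getD b.1 0 := by exact_mod_cast h4
  have key : ∀ a b : Fin 20, dl.getD a.1 0 = dl.getD b.1 0 → dv.getD a.1 0 = dv.getD b.1 0 →
      a = b := by decide
  exact key a b h5 h6

lemma twenty_unit : IsUnitRep twenty := by
  intro a b
  change 2 * ((dl.getD a.1 0 : ℕ) : ℝ) + 20 - 2 * ((dl.getD a.1 0 : ℕ) : ℝ) =
    2 * ((dl.getD b.1 0 : ℕ) : ℝ) + 20 - 2 * ((dl.getD b.1 0 : ℕ) : ℝ)
  ring

/-- integer form of one half of the adjacency -/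
def half (a b : ℕ) : Prop :=
  2 * dl.getD a 0 + 2 * dv.getD a 0 + 1 < 2 * dl.getD b 0 ∧
  2 * dl.getD b 0 < 2 * dl.getD a 0 + 20 ∧
  2 * dl.getD a 0 + 20 < 2 * dl.getD b 0 + 2 * dv.getD b 0 + 1

instance (a b : ℕ) : Decidable (half a b) := by unfold half; infer_instance

lemma adj_of_half (a b : Fin 20) (h : half a.1 b.1) : (graphOf twenty).Adj a b := by
  left
  obtain ⟨h1, h2, h3⟩ := h
  change 2 * ((dl.getD a.1 0 : ℕ) : ℝ) + 2 * ((dv.getD a.1 0 : ℕ) : ℝ) + 1 <
      2 * ((dl.getD b.1 0 : ℕ) : ℝ) ∧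
    2 * ((dl.getD b.1 0 : ℕ) : ℝ) < 2 * ((dl.getD a.1 0 : ℕ) : ℝ) + 20 ∧
    2 * ((dl.getD a.1 0 : ℕ) : ℝ) + 20 <
      2 * ((dl.getD b.1 0 : ℕ) : ℝ) + 2 * ((dv.getD b.1 0 : ℕ) : ℝ) + 1
  refine ⟨?_, ?_, ?_⟩
  · exact_mod_cast h1
  · exact_mod_cast h2
  · exact_mod_cast h3

lemma nbs_adj : ∀ i : Fin 20, ∀ j ∈ nbs.getD i.1 [],
    j < i.1 ∧ (half i.1 j ∨ half j i.1) := by decide

lemma search_false : search nbs [] = false := by decide +kernel

lemma twenty_not_three : ¬ (graphOf twenty).Colorable 3 := by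
  rintro ⟨C⟩
  let f : ℕ → ℕ := fun i => if h : i < 20 then (C ⟨i, h⟩ : Fin 3).1 else 0
  have hf : ∀ i, f i < 3 := by
    intro i
    by_cases h : i < 20
    · have : f i = (C ⟨i, h⟩ : Fin 3).1 := dif_pos h
      rw [this]
      exact (C ⟨i, h⟩ : Fin 3).2
    · have : f i = 0 := dif_neg h
      rw [this]
      norm_num
  have h1 := search_true f hf nbs 0 (by
    intro i hi j hj
    have hi' : i < 20 := hi
    obtain ⟨h2, h3⟩ := nbs_adj ⟨i, hi'⟩ j hj
    simp only at h2 h3
    refine ⟨by omega, ?_⟩
    rw [zero_add]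
    have hj' : j < 20 := by omega
    have e1 : f i = (C ⟨i, hi'⟩ : Fin 3).1 := dif_pos hi'
    have e2 : f j = (C ⟨j, hj'⟩ : Fin 3).1 := dif_pos hj'
    rw [e1, e2]
    intro h4
    have h5 : C ⟨j, hj'⟩ = C ⟨i, hi'⟩ := Fin.ext h4
    rcases h3 with h3 | h3
    · exact C.valid (adj_of_half ⟨i, hi'⟩ ⟨j, hj'⟩ h3) h5.symm
    · exact C.valid (adj_of_half ⟨j, hj'⟩ ⟨i, hi'⟩ h3) h5)
  have h2 : search nbs ((List.range 0).map f) = search nbs [] := rfl
  rw [h2, search_false] at h1
  exact Bool.false_ne_true h1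

/-- The largest chromatic number of a finite unit veto interval graph is `4`; for midpoint unit
veto interval graphs and for midpoint proper veto interval graphs it is `3`. -/
theorem result :
    IsGreatest {k : ℕ∞ | ∃ (V : Type) (_ : Fintype V) (G : SimpleGraph V) (I : V → VetoInterval),
      IsRep G I ∧ IsUnitRep I ∧ G.chromaticNumber = k} 4 ∧
    IsGreatest {k : ℕ∞ | ∃ (V : Type) (_ : Fintype V) (G : SimpleGraph V) (I : V → VetoInterval),
      IsRep G I ∧ IsMidpointRep I ∧ IsUnitRep I ∧ G.chromaticNumber = k} 3 ∧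
    IsGreatest {k : ℕ∞ | ∃ (V : Type) (_ : Fintype V) (G : SimpleGraph V) (I : V → VetoInterval),
      IsRep G I ∧ IsMidpointRep I ∧ IsProperRep I ∧ G.chromaticNumber = k} 3 := by
  have hthree : (graphOf five).chromaticNumber = 3 := by
    have h1 : (graphOf five).Colorable 3 :=
      midpointProper_colorable _ five (isRep_graphOf five five_inj) five_unit.proper five_mid
    apply le_antisymm
    · exact_mod_cast h1.chromaticNumber_le
    · by_contra h
      rw [not_le] at h
      have h2 : (graphOf five).chromaticNumber ≤ 2 :=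
        Order.le_of_lt_add_one (by
          have : (2 : ℕ∞) + 1 = 3 := by norm_num
          rw [this]; exact h)
      exact five_not_two (SimpleGraph.chromaticNumber_le_iff_colorable.1 (by exact_mod_cast h2))
  have hfour : (graphOf twenty).chromaticNumber = 4 := by
    have h1 : (graphOf twenty).Colorable 4 :=
      unit_colorable _ twenty (isRep_graphOf twenty twenty_inj) twenty_unit
    apply le_antisymm
    · exact_mod_cast h1.chromaticNumber_le
    · by_contra h
      rw [not_le] at h
      have h2 : (graphOf twenty).chromaticNumber ≤ 3 :=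
        Order.le_of_lt_add_one (by
          have : (3 : ℕ∞) + 1 = 4 := by norm_num
          rw [this]; exact h)
      exact twenty_not_three (SimpleGraph.chromaticNumber_le_iff_colorable.1 (by exact_mod_cast h2))
  refine ⟨⟨⟨Fin 20, inferInstance, graphOf twenty, twenty, isRep_graphOf twenty twenty_inj,
    twenty_unit, hfour⟩, ?_⟩, ⟨⟨Fin 5, inferInstance, graphOf five, five,
    isRep_graphOf five five_inj, five_mid, five_unit, hthree⟩, ?_⟩,
    ⟨⟨Fin 5, inferInstance, graphOf five, five,
    isRep_graphOf five five_inj, five_mid, five_unit.proper, hthree⟩, ?_⟩⟩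
  · rintro k ⟨V, _, G, I, hI, hu, rfl⟩
    exact_mod_cast (unit_colorable G I hI hu).chromaticNumber_le
  · rintro k ⟨V, _, G, I, hI, hm, hu, rfl⟩
    exact_mod_cast (midpointProper_colorable G I hI hu.proper hm).chromaticNumber_le
  · rintro k ⟨V, _, G, I, hI, hm, hp, rfl⟩
    exact_mod_cast (midpointProper_colorable G I hI hp hm).chromaticNumber_le

end Pool.Agent.Helper181.VetoChromaticNumbers
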